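import Pool.Agent.Helper29.SH.Goals

/-!
# SH-FNL (MP_0a002a_al): Shunkov groups with a finite normal subgroup
-/

set_option autoImplicit false

namespace Pool.Agent.Helper13.SH

open Subgroup Pool.H83Shunkov Pool.Agent.Helper29.SH

theorem fnl_fin_preim {G : Type} [Group G] (T : Subgroup G) [T.Normal] (hT : (T : Set G).Finite)
    (S : Set (G ⧸ T)) (hS : S.Finite) : ((QuotientGroup.mk' T) ⁻¹' S).Finite := by
  refine hS.preimage' fun b _ => ?_
  obtain ⟨g, rfl⟩ := QuotientGroup.mk'_surjective T b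
  refine (hT.image fun t => g * t).subset ?_
  intro h hh
  have h1 : (QuotientGroup.mk' T) h = (QuotientGroup.mk' T) g := hh
  refine ⟨g⁻¹ * h, ?_, mul_inv_cancel_left g h⟩
  exact QuotientGroup.eq.1 h1.symm

theorem inf_image {G : Type} [Group G] (T : Subgroup G) [T.Normal] (hT : (T : Set G).Finite)
    (S : Set G) (hS : S.Infinite) : ((QuotientGroup.mk' T) '' S).Infinite := by
  intro hfin
  exact hS ((fnl_fin_preim T hT _ hfin).subset (Set.subset_preimage_image _ S))

theorem infTor_quot {G : Type} [Group G] (T : Subgroup G) [T.Normal] (hT : (T : Set G).Finite)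
    (h : InfTor G) : InfTor (G ⧸ T) := by
  refine (inf_image T hT _ h).mono ?_
  rintro x ⟨g, hg, rfl⟩
  exact (QuotientGroup.mk' T).isOfFinOrder hg

theorem cen_finiteIndex {G : Type} [Group G] (a : G) (S : Set G) (hS : S.Finite)
    (h : ∀ g : G, g * a * g⁻¹ ∈ S) : (centralizer ({a} : Set G)).FiniteIndex := by
  have : Finite S := hS.to_subtype
  rw [finiteIndex_iff_finite_quotient]
  refine Finite.of_injective (fun q : G ⧸ centralizer ({a} : Set G) =>
    (⟨q.out * a * q.out⁻¹, h _⟩ : S)) ?_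
  intro q r hqr
  have h1 : q.out * a * q.out⁻¹ = r.out * a * r.out⁻¹ := congrArg Subtype.val hqr
  have h2 : q.out⁻¹ * r.out ∈ centralizer ({a} : Set G) := by
    rw [mem_centralizer_singleton_iff]
    have h3 : q.out * a = r.out * a * r.out⁻¹ * q.out := by
      rw [← h1, inv_mul_cancel_right]
    calc q.out⁻¹ * r.out * a = q.out⁻¹ * (r.out * a * r.out⁻¹ * q.out) * q.out⁻¹ * r.out := by
          group
      _ = q.out⁻¹ * (q.out * a) * q.out⁻¹ * r.out := by rw [h3]
      _ = a * (q.out⁻¹ * r.out) := by group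
  have h3 : (QuotientGroup.mk q.out : G ⧸ centralizer ({a} : Set G)) = QuotientGroup.mk r.out :=
    QuotientGroup.eq.2 h2
  rw [QuotientGroup.out_eq', QuotientGroup.out_eq'] at h3
  exact h3

theorem tor_mem_lfRad {G : Type} [Group G] (h : {g : G | IsOfFinOrder g}.Finite) {t : G}
    (ht : IsOfFinOrder t) : t ∈ lfRad G := by
  have h1 : (centralizer ({t} : Set G)).FiniteIndex := by
    refine cen_finiteIndex t _ h fun g => ?_
    have h2 : IsOfFinOrder ((MulAut.conj g) t) := (MulAut.conj g).toMonoidHom.isOfFinOrder ht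
    rw [MulAut.conj_apply] at h2
    exact h2
  refine mem_lfRad_of_comm ht h1 fun x hx => ?_
  exact mem_centralizer_singleton_iff.1 hx

theorem inLF_of_normalizing (hLFA : S_LFA) {G : Type} [Group G] (a : G) (ha : IsOfFinOrder a)
    (L : Subgroup G) (hinv : Inv a L) (hL : IsLocFin L) (hinf : (L : Set G).Infinite) :
    InLF a := by
  refine ⟨L ⊔ zpowers a, mem_sup_right (mem_zpowers a), ?_, hLFA G a L ha hinv hL⟩
  exact hinf.mono (show (L : Set G) ⊆ ((L ⊔ zpowers a : Subgroup G) : Set G) from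
    (le_sup_left : L ≤ L ⊔ zpowers a))

theorem comap_locFin {G : Type} [Group G] (T : Subgroup G) [T.Normal] (hT : (T : Set G).Finite)
    (K : Subgroup (G ⧸ T)) (hK : IsLocFin K) : IsLocFin (K.comap (QuotientGroup.mk' T)) := by
  refine IsLocFin.of_map_quotient T (isLocFin_of_finite hT) ?_
  exact hK.mono (map_comap_le _ _)

theorem comap_infinite {G : Type} [Group G] (T : Subgroup G) [T.Normal]
    (K : Subgroup (G ⧸ T)) (hK : (K : Set (G ⧸ T)).Infinite) :
    ((K.comap (QuotientGroup.mk' T) : Subgroup G) : Set G).Infinite := by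
  intro hfin
  refine hK ((hfin.image (QuotientGroup.mk' T)).subset ?_)
  intro x hx
  obtain ⟨g, rfl⟩ := QuotientGroup.mk'_surjective T x
  exact ⟨g, hx, rfl⟩

/-- case (1). -/
theorem case1 (hBB : S_BB) (H : Type) [Group H] (T : Subgroup H) [T.Normal]
    (hT : (T : Set H).Finite) (hSh : IsShunkov (H ⧸ T)) (hInf : InfTor (H ⧸ T))
    (hRG : RG (H ⧸ T)) (a : H) (ha : (orderOf a).Prime) (haT : a ∉ T) : InLF a := by
  have h1 : orderOf (QuotientGroup.mk' T a) = orderOf a := by
    have : Fact (orderOf a).Prime := ⟨ha⟩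
    refine orderOf_eq_prime ?_ ?_
    · rw [← map_pow, pow_orderOf_eq_one, map_one]
    · intro h
      exact haT ((QuotientGroup.eq_one_iff a).1 h)
  obtain ⟨K, haK, hKinf, hKlf⟩ := hBB (H ⧸ T) hRG hSh hInf (QuotientGroup.mk' T a)
    (by rw [h1]; exact ha)
  exact ⟨K.comap (QuotientGroup.mk' T), haK, comap_infinite T K hKinf, comap_locFin T hT K hKlf⟩

/-- case (2a). -/
theorem case2a (hAA : S_AA) (hSSUB : S_SSUB) (hRSUB : S_RSUB) (hLFA : S_LFA)
    (H : Type) [Group H] (T : Subgroup H) [T.Normal]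
    (hT : (T : Set H).Finite) (hSh : IsShunkov (H ⧸ T))
    (hRG : RG (H ⧸ T)) (a : H) (ha : IsOfFinOrder a)
    (hTor : (Tor (centralizer ({a} : Set H))).Infinite) : InLF a := by
  let C : Subgroup H := centralizer ({a} : Set H)
  let C' : Subgroup (H ⧸ T) := C.map (QuotientGroup.mk' T)
  have hSh' : IsShunkov C' := hSSUB (H ⧸ T) C' C'.subtype C'.subtype_injective hSh
  have hRG' : RG C' := hRSUB (H ⧸ T) C' C'.subtype C'.subtype_injective hRG
  have hInf' : InfTor C' := by
    intro hfin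
    refine inf_image T hT _ hTor ((hfin.image C'.subtype).subset ?_)
    rintro x ⟨t, ⟨htC, ht⟩, rfl⟩
    refine ⟨⟨QuotientGroup.mk' T t, ⟨t, htC, rfl⟩⟩, ?_, rfl⟩
    have h1 : IsOfFinOrder (QuotientGroup.mk' T t) := (QuotientGroup.mk' T).isOfFinOrder ht
    obtain ⟨n, hn, hpow⟩ := isOfFinOrder_iff_pow_eq_one.1 h1
    exact isOfFinOrder_iff_pow_eq_one.2 ⟨n, hn, Subtype.ext hpow⟩
  obtain ⟨K, _, hKinf, hKlf⟩ := hAA C' hRG' hSh' hInf'
  let L' : Subgroup (H ⧸ T) := K.map C'.subtype
  have hL'lf : IsLocFin L' := hKlf.map C'.subtype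
  have hL'inf : (L' : Set (H ⧸ T)).Infinite := by
    have h1 := hKinf.image (f := C'.subtype) C'.subtype_injective.injOn
    exact h1
  have hL'C : L' ≤ C' := map_subtype_le K
  let L : Subgroup H := C ⊓ L'.comap (QuotientGroup.mk' T)
  have hLlf : IsLocFin L := (comap_locFin T hT L' hL'lf).mono inf_le_right
  have hLinf : (L : Set H).Infinite := by
    intro hfin
    refine hL'inf ((hfin.image (QuotientGroup.mk' T)).subset ?_)
    intro x hx
    obtain ⟨c, hc, hcx⟩ := hL'C hx
    refine ⟨c, ⟨hc, ?_⟩, hcx⟩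
    change QuotientGroup.mk' T c ∈ L'
    rw [hcx]
    exact hx
  refine inLF_of_normalizing hLFA a ha L ?_ hLlf hLinf
  intro k hk
  have h1 : k * a = a * k := mem_centralizer_singleton_iff.1 (show k ∈ centralizer ({a} : Set H) from hk.1)
  have h2 : a⁻¹ * k * a = k := by
    rw [mul_assoc, h1, inv_mul_cancel_left]
  rw [h2]
  exact hk

/-- case (2b). -/
theorem case2b (hSQUO : S_SQUO) (hLFA : S_LFA)
    (H : Type) [Group H] (hSh : IsShunkov H) (hInf : InfTor H)
    (a : H) (ha : IsOfFinOrder a) (hCi : (centralizer ({a} : Set H)).FiniteIndex)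
    (hTor : (Tor (centralizer ({a} : Set H))).Finite) : InLF a := by
  let C : Subgroup H := centralizer ({a} : Set H)
  have hCi' : C.FiniteIndex := hCi
  let C₀ : Subgroup H := C.normalCore
  have hC₀i : C₀.FiniteIndex := inferInstance
  have hC₀n : C₀.Normal := inferInstance
  have hC₀C : C₀ ≤ C := C.normalCore_le
  have hfin0 : {g : C₀ | IsOfFinOrder g}.Finite := by
    refine Set.Finite.of_finite_image (f := C₀.subtype) (hTor.subset ?_)
      C₀.subtype_injective.injOn
    rintro x ⟨y, hy, rfl⟩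
    exact ⟨hC₀C y.2, C₀.subtype.isOfFinOrder hy⟩
  have hrad : ∀ t : C₀, IsOfFinOrder t ↔ t ∈ lfRad C₀ := by
    intro t
    constructor
    · exact tor_mem_lfRad hfin0
    · intro ht
      have h1 := isLocFin_lfRad (G := C₀) {t} (by
        rw [Finset.coe_singleton, Set.singleton_subset_iff]
        exact ht)
      refine isOfFinOrder_of_mem_finite h1 (subset_closure ?_)
      rw [Finset.coe_singleton]
      exact Set.mem_singleton t
  let T₁ : Subgroup H := (lfRad C₀).map C₀.subtype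
  have hT₁n : T₁.Normal := inferInstance
  have hT₁f : (T₁ : Set H).Finite := by
    have h1 : ((lfRad C₀ : Subgroup C₀) : Set C₀).Finite :=
      hfin0.subset fun t ht => (hrad t).2 ht
    exact h1.image C₀.subtype
  -- the quotient is good
  let C₁ : Subgroup (H ⧸ T₁) := C₀.map (QuotientGroup.mk' T₁)
  have hC₁n : C₁.Normal := Subgroup.Normal.map hC₀n _ (QuotientGroup.mk'_surjective T₁)
  have hC₁i : C₁.FiniteIndex := finiteIndex_map hC₀i (QuotientGroup.mk'_surjective T₁)
  have hgood1 : Good C₁ := by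
    refine good_torsionFree C₁ ?_
    rintro ⟨x, c, hc, rfl⟩ hx
    obtain ⟨n, hn, hpow⟩ := isOfFinOrder_iff_pow_eq_one.1 hx
    have h1 : (QuotientGroup.mk' T₁ c) ^ n = 1 := congrArg Subtype.val hpow
    rw [← map_pow] at h1
    have h2 : c ^ n ∈ T₁ := (QuotientGroup.eq_one_iff (c ^ n)).1 h1
    have h3 : IsOfFinOrder (c ^ n) := isOfFinOrder_of_mem_finite hT₁f h2
    have h4 : IsOfFinOrder c := by
      obtain ⟨m, hm, hpow'⟩ := isOfFinOrder_iff_pow_eq_one.1 h3
      exact isOfFinOrder_iff_pow_eq_one.2 ⟨n * m, Nat.mul_pos hn hm, by rw [pow_mul]; exact hpow'⟩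
    have h5 : IsOfFinOrder (⟨c, hc⟩ : C₀) := by
      obtain ⟨m, hm, hpow'⟩ := isOfFinOrder_iff_pow_eq_one.1 h4
      exact isOfFinOrder_iff_pow_eq_one.2 ⟨m, hm, Subtype.ext hpow'⟩
    have h6 : c ∈ T₁ := ⟨⟨c, hc⟩, (hrad _).1 h5, rfl⟩
    exact Subtype.ext ((QuotientGroup.eq_one_iff c).2 h6)
  have hfinq : Finite ((H ⧸ T₁) ⧸ C₁) := finiteIndex_iff_finite_quotient.1 hC₁i
  have hgood : Good (H ⧸ T₁) := good_extension (H ⧸ T₁) C₁ hgood1 (good_finite _)
  have hSh₁ : IsShunkov (H ⧸ T₁) := hSQUO H T₁ hT₁f hSh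
  have hInf₁ : InfTor (H ⧸ T₁) := infTor_quot T₁ hT₁f hInf
  have hconc := (shunkov_conclusion hgood.X hSh₁ hInf₁).1
  have hnorm : ((lfRad (H ⧸ T₁)).comap (QuotientGroup.mk' T₁)).Normal := inferInstance
  refine inLF_of_normalizing hLFA a ha ((lfRad (H ⧸ T₁)).comap (QuotientGroup.mk' T₁)) ?_
    (comap_locFin T₁ hT₁f _ isLocFin_lfRad) (comap_infinite T₁ _ hconc)
  intro k hk
  have h1 := hnorm.conj_mem k hk a⁻¹
  rw [inv_inv] at h1
  exact h1

theorem t_FNL : S_AA → S_BB → S_SSUB → S_SQUO → S_RSUB → S_LFA → S_FNL := by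
  intro hAA hBB hSSUB hSQUO hRSUB hLFA H _ T _ hT hSh hInf hRG a ha
  have hShT : IsShunkov (H ⧸ T) := hSQUO H T hT hSh
  have hInfT : InfTor (H ⧸ T) := infTor_quot T hT hInf
  by_cases haT : a ∈ T
  · have hafin : IsOfFinOrder a := isOfFinOrder_of_mem_finite hT haT
    have hCi : (centralizer ({a} : Set H)).FiniteIndex :=
      cen_finiteIndex a _ hT fun g => (inferInstance : T.Normal).conj_mem a haT g
    by_cases hTor : (Tor (centralizer ({a} : Set H))).Finite
    · exact case2b hSQUO hLFA H hSh hInf a hafin hCi hTor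
    · exact case2a hAA hSSUB hRSUB hLFA H T hT hShT hRG a hafin hTor
  · exact case1 hBB H T hT hShT hInfT hRG a ha haT

end Pool.Agent.Helper13.SH
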