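import Pool.Agent.Helper29.SH.Goals

/-!
# SH-SQUO (MP_0a002a_al): quotients of Shunkov groups by finite normal subgroups
-/

set_option autoImplicit false

namespace Pool.Agent.Helper13.SH

open Subgroup Pool.H83Shunkov Pool.Agent.Helper29.SH

theorem finite_comap {G : Type} [Group G] (T : Subgroup G) [T.Normal] (hT : (T : Set G).Finite)
    (H : Subgroup (G ⧸ T)) (hH : (H : Set (G ⧸ T)).Finite) :
    ((H.comap (QuotientGroup.mk' T) : Subgroup G) : Set G).Finite := by
  rw [Subgroup.coe_comap]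
  refine hH.preimage' fun b _ => ?_
  obtain ⟨g, rfl⟩ := QuotientGroup.mk'_surjective T b
  refine (hT.image fun t => g * t).subset ?_
  intro h hh
  have h1 : (QuotientGroup.mk' T) h = (QuotientGroup.mk' T) g := hh
  refine ⟨g⁻¹ * h, ?_, mul_inv_cancel_left g h⟩
  exact QuotientGroup.eq.1 h1.symm

theorem mem_norm_comap {G : Type} [Group G] (T : Subgroup G) [T.Normal]
    (H : Subgroup (G ⧸ T)) (x : G)
    (hx : QuotientGroup.mk' T x ∈ Subgroup.normalizer (H : Set (G ⧸ T))) :
    x ∈ Subgroup.normalizer ((H.comap (QuotientGroup.mk' T) : Subgroup G) : Set G) := by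
  rw [Subgroup.mem_set_normalizer_iff] at hx ⊢
  intro h
  have h1 := hx (QuotientGroup.mk' T h)
  rw [← map_mul, ← map_inv, ← map_mul] at h1
  exact h1

theorem t_SQUO : Pool.Agent.Helper29.SH.S_SQUO := by
  intro G _ T _ hT hG H hH x' y' n' p hp hx' hy' hn' hxp hxH hyH
  obtain ⟨x, rfl⟩ := QuotientGroup.mk'_surjective T x'
  obtain ⟨y, rfl⟩ := QuotientGroup.mk'_surjective T y'
  obtain ⟨n, rfl⟩ := QuotientGroup.mk'_surjective T n'
  have h1 := hG (H.comap (QuotientGroup.mk' T)) (finite_comap T hT H hH) x y n p hp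
    (mem_norm_comap T H x hx') (mem_norm_comap T H y hy') (mem_norm_comap T H n hn')
    (by rw [Subgroup.mem_comap, map_pow]; exact hxp)
    (by rw [Subgroup.mem_comap]; exact hxH)
    (by
      rw [Subgroup.mem_comap, map_mul, map_inv, map_mul, map_mul, map_inv]
      exact hyH)
  have h2 := h1.image (QuotientGroup.mk' T)
  refine h2.subset ?_
  have h3 : Subgroup.closure (({QuotientGroup.mk' T x, QuotientGroup.mk' T y} : Set (G ⧸ T))
      ∪ (H : Set (G ⧸ T))) ≤ (Subgroup.closure (({x, y} : Set G) ∪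
        ((H.comap (QuotientGroup.mk' T) : Subgroup G) : Set G))).map (QuotientGroup.mk' T) := by
    rw [Subgroup.closure_le]
    rintro z (hz | hz)
    · rcases hz with hz | hz
      · rw [hz]
        exact ⟨x, Subgroup.subset_closure (Or.inl (Or.inl rfl)), rfl⟩
      · rw [Set.mem_singleton_iff.1 hz]
        exact ⟨y, Subgroup.subset_closure (Or.inl (Or.inr rfl)), rfl⟩
    · obtain ⟨w, rfl⟩ := QuotientGroup.mk'_surjective T z
      exact ⟨w, Subgroup.subset_closure (Or.inr hz), rfl⟩
  exact h3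

end Pool.Agent.Helper13.SH
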